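import Pool.Agent.H.MP_f6f917_al.Main

namespace Pool.Agent.Results.MP_f6f917_al.Q1

theorem result : ∃ (Ω : Type) (p : ℕ) (G S : Subgroup (Equiv.Perm Ω)), Infinite Ω ∧ p.Prime ∧
    (∀ g ∈ G, {x | g x ≠ x}.Finite) ∧ (∀ x y, ∃ g ∈ G, g x = y) ∧
    S ≤ G ∧ IsPGroup p S ∧ (∀ T : Subgroup (Equiv.Perm Ω), S ≤ T → T ≤ G → IsPGroup p T → T = S) ∧
    (∀ x y, ∃ g ∈ S, g x = y) ∧
    ∀ H ≤ S, (∀ x y, ∃ h ∈ H, h x = y) → ∃ u ∈ H, ∃ x, ∃ v ∈ H,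
      ¬ (v '' Set.range (fun n : ℤ => (u ^ n) x) = Set.range (fun n : ℤ => (u ^ n) x) ∨
        Disjoint (v '' Set.range (fun n : ℤ => (u ^ n) x)) (Set.range (fun n : ℤ => (u ^ n) x))) :=
  open Pool.Agent.H.MP_f6f917_al in
  ⟨Om, 2, S, S, inferInstance, Nat.prime_two, fun _ => S_fin, S_tr, le_rfl, S_p,
    fun _ h1 h2 _ => le_antisymm h2 h1, S_tr, S_bad⟩

end Pool.Agent.Results.MP_f6f917_al.Q1
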